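import Pool.Agent.H36.Skew.Hard

set_option autoImplicit false

namespace Pool.Agent.H36.Skew

open SimpleGraph Pool.Agent.H80.Poly Pool.Agent.H72.NP

namespace Red

/-- the parameter `T` -/
def tt (I : CliqueInst) : ℕ :=
  I.1.toNat + I.2.2.toNat + I.2.1.length + I.2.2.toNat * I.2.2.toNat + 1

/-- the parameter `a` -/
def aa (I : CliqueInst) : ℕ := tt I + I.2.2.toNat

/-- the parameter `b` -/
def bb (I : CliqueInst) : ℕ :=
  aa I + (I.2.1.length + tt I) - I.2.2.toNat * (I.2.2.toNat - 1) / 2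

/-- the map of the reduction -/
noncomputable def gg (c : ℝ) (I : CliqueInst) : GraphCode :=
  code I.2.1 (aa I) (bb I) ⌊c * (tt I : ℝ)⌋₊

theorem gg_perfect (c : ℝ) (I : CliqueInst) : IsPerfect (gg c I).graph :=
  (code_coBip I.2.1 (aa I) (bb I) ⌊c * (tt I : ℝ)⌋₊).isPerfect

theorem thr {c : ℝ} (hc : 4 ≤ c) (T m : ℕ) : ((⌊c * (T : ℝ)⌋₊ : ℝ) / c ≤ m ↔ T ≤ m) := by
  have hc0 : 0 < c := by linarith
  rw [div_le_iff₀ hc0]
  constructor
  · intro h
    by_contra hlt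
    rw [not_le] at hlt
    have h1 : (m : ℝ) + 1 ≤ T := by exact_mod_cast hlt
    have h2 := Nat.lt_floor_add_one (c * (T : ℝ))
    have h3 : c * ((m : ℝ) + 1) ≤ c * T := mul_le_mul_of_nonneg_left h1 hc0.le
    nlinarith
  · intro h
    have h1 : (⌊c * (T : ℝ)⌋₊ : ℝ) ≤ c * T := Nat.floor_le (by positivity)
    have h2 : (T : ℝ) ≤ m := by exact_mod_cast h
    nlinarith

theorem gg_iff {c : ℝ} (hc : 4 ≤ c) (I : CliqueInst) (hI : I.WF) :
    HasClique I.1.toNat I.2.1 I.2.2.toNat ↔ HasBSP c (gg c I).graph := by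
  obtain ⟨hE, hk, hkm⟩ := hI
  have hch : I.2.2.toNat.choose 2 = I.2.2.toNat * (I.2.2.toNat - 1) / 2 := Nat.choose_two_right _
  have hch2 : I.2.2.toNat.choose 2 ≤ I.2.2.toNat * I.2.2.toNat := by
    rw [hch]
    refine (Nat.div_le_self _ _).trans (Nat.mul_le_mul_left _ (Nat.sub_le _ _))
  have hT : I.1.toNat + I.2.2.toNat + I.2.1.length + I.2.2.toNat.choose 2 < tt I := by
    unfold tt; omega
  have hn : 4 * tt I ≤ ⌊c * (tt I : ℝ)⌋₊ := by
    apply Nat.le_floor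
    push_cast
    exact mul_le_mul_of_nonneg_right hc (Nat.cast_nonneg _)
  have hb : bb I + I.2.2.toNat.choose 2 = aa I + (I.2.1.length + tt I) := by
    unfold bb
    rw [← hch]
    omega
  have h1 := main hE hk hkm hT (rfl : aa I = tt I + I.2.2.toNat) hb hn
  rw [← h1]
  show (∃ p : Fin ⌊c * (tt I : ℝ)⌋₊ → Fin 4, IsSkewPartition (gr I.2.1 (aa I) (bb I)
    ⌊c * (tt I : ℝ)⌋₊) p ∧ ∀ i, tt I ≤ (Finset.univ.filter (fun v => p v = i)).card) ↔
    (∃ p : Fin ⌊c * (tt I : ℝ)⌋₊ → Fin 4, IsSkewPartition (gr I.2.1 (aa I) (bb I)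
    ⌊c * (tt I : ℝ)⌋₊) p ∧ ∀ i, (Fintype.card (Fin ⌊c * (tt I : ℝ)⌋₊) : ℝ) / c ≤
      ((Finset.univ.filter (fun v => p v = i)).card : ℝ))
  rw [Fintype.card_fin]
  simp only [thr hc]

section poly

variable {Γ : Type} [BEnc Γ]

theorem polyTime_edgeList {n : Γ → ℕ} {f : Γ → ℕ → ℕ → Bool} (hn : PU n)
    (hf : PolyTime (fun w : Γ × ℕ × ℕ => f w.1 w.2.1 w.2.2)) :
    PolyTime (fun a => edgeList (n a) (f a)) := by
  have hw : PolyTime (fun w : Γ × ℕ => w) := PolyTime.id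
  have hu : PolyTime (fun w : (Γ × ℕ) × ℕ => w) := PolyTime.id
  have h1 : PU (fun w : Γ × ℕ => min w.2 (n w.1)) :=
    PU.of_le (hw.snd.min (hn.1.comp hw.fst)) (PU.comp hn hw.fst) (fun _ => min_le_right _ _)
  have h2 := h1.range.filter (g := fun w : (Γ × ℕ) × ℕ => f w.1.1 w.2 w.1.2)
    (hf.comp (hu.fst.fst.pair (hu.snd.pair hu.fst.snd)))
  have h3 := h2.map (g := fun w : (Γ × ℕ) × ℕ => (w.2, w.1.2)) (hu.snd.pair hu.fst.snd)
  have h4 := hn.range.flatMap (g := fun w : Γ × ℕ =>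
    ((List.range (min w.2 (n w.1))).filter fun u => f w.1 u w.2).map
      fun u => (u, w.2)) h3
  refine h4.congr (fun a => ?_)
  unfold edgeList
  apply List.flatMap_congr
  intro v hv
  rw [List.mem_range] at hv
  simp only
  rw [min_eq_left hv.le]

theorem polyTime_adj {E : Γ → List (ℕ × ℕ)} {a b u v : Γ → ℕ} (hE : PolyTime E) (ha : PolyTime a)
    (hb : PolyTime b) (hu : PolyTime u) (hv : PolyTime v) :
    PolyTime (fun x => adj (E x) (a x) (b x) (u x) (v x)) := by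
  have hg : PolyTime (fun x => (E x).getD (v x - a x) (0, 0)) :=
    hE.list_getD (hv.sub ha) (PolyTime.const (0, 0))
  exact (hv.lt ha).or ((ha.le hu).or ((hb.le hv).or (((hv.sub ha).lt (PolyTime.length hE)).and
    ((hu.eq hg.fst).or (hu.eq hg.snd)))))

theorem pu_tt : PU tt := by
  have hI : PolyTime (fun I : CliqueInst => I) := PolyTime.id
  have h1 : PU (fun I : CliqueInst => I.1.toNat) := ⟨hI.fst.unatToNat, hI.fst.unat_bd⟩
  have h2 : PU (fun I : CliqueInst => I.2.2.toNat) := ⟨hI.snd.snd.unatToNat, hI.snd.snd.unat_bd⟩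
  have h3 : PU (fun I : CliqueInst => I.2.1.length) := PU.length hI.snd.fst
  exact (((h1.add h2).add h3).add (h2.mul h2)).add (PU.const 1)

theorem polyTime_aa : PolyTime aa := by
  have hI : PolyTime (fun I : CliqueInst => I) := PolyTime.id
  exact pu_tt.1.add hI.snd.snd.unatToNat

theorem polyTime_bb : PolyTime bb := by
  have hI : PolyTime (fun I : CliqueInst => I) := PolyTime.id
  have h2 : PolyTime (fun I : CliqueInst => I.2.2.toNat) := hI.snd.snd.unatToNat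
  have h3 : PolyTime (fun I : CliqueInst => I.2.1.length) := PolyTime.length hI.snd.fst
  exact (polyTime_aa.add (h3.add pu_tt.1)).sub ((h2.mul (h2.sub (PolyTime.const 1))).div
    (PolyTime.const 2))

theorem polyTime_gg {c : ℝ}
    (hc : PolyTime (fun t : UNat => UNat.ofNat ⌊c * (t.toNat : ℝ)⌋₊)) : PolyTime (gg c) := by
  have hI : PolyTime (fun I : CliqueInst => I) := PolyTime.id
  have h1 : PolyTime (fun I : CliqueInst => UNat.ofNat (tt I)) := pu_tt.1.natToUnat pu_tt.2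
  have h2 : PolyTime (fun I : CliqueInst => UNat.ofNat ⌊c * (tt I : ℝ)⌋₊) := hc.comp h1
  have h3 : PU (fun I : CliqueInst => ⌊c * (tt I : ℝ)⌋₊) := ⟨h2.unatToNat, h2.unat_bd⟩
  have hw : PolyTime (fun w : CliqueInst × ℕ × ℕ => w) := PolyTime.id
  have h4 : PolyTime (fun w : CliqueInst × ℕ × ℕ => w.1.2.1) := hw.fst.snd.fst
  have h5 : PolyTime (fun w : CliqueInst × ℕ × ℕ => aa w.1) := polyTime_aa.comp hw.fst
  have h6 : PolyTime (fun w : CliqueInst × ℕ × ℕ => bb w.1) := polyTime_bb.comp hw.fst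
  have h7 : PolyTime (fun w : CliqueInst × ℕ × ℕ =>
      adj w.1.2.1 (aa w.1) (bb w.1) w.2.1 w.2.2) :=
    polyTime_adj h4 h5 h6 hw.snd.fst hw.snd.snd
  have h8 : PolyTime (fun I : CliqueInst => edgeList ⌊c * (tt I : ℝ)⌋₊
      (adj I.2.1 (aa I) (bb I))) :=
    polyTime_edgeList (n := fun I : CliqueInst => ⌊c * (tt I : ℝ)⌋₊)
      (f := fun I : CliqueInst => adj I.2.1 (aa I) (bb I)) h3 h7
  exact h2.pair h8

end poly

theorem polyTime_rat {q : ℚ} (hq : 0 ≤ q) :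
    PolyTime (fun t : UNat => UNat.ofNat ⌊(q : ℝ) * (t.toNat : ℝ)⌋₊) := by
  have hI : PolyTime (fun t : UNat => t) := PolyTime.id
  have h1 : PU (fun t : UNat => t.toNat) := ⟨hI.unatToNat, hI.unat_bd⟩
  have h2 : PU (fun t : UNat => q.num.toNat * t.toNat) := (PU.const q.num.toNat).mul h1
  have h3 : PU (fun t : UNat => q.num.toNat * t.toNat / q.den) :=
    PU.of_le (h2.1.div (PolyTime.const q.den)) h2 (fun t => Nat.div_le_self _ _)
  refine (h3.1.natToUnat h3.2).congr (fun t => ?_)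
  congr 1
  have h4 : (q : ℝ) = (q.num.toNat : ℝ) / (q.den : ℝ) := by
    have h5 : (q.num.toNat : ℤ) = q.num := Int.toNat_of_nonneg (Rat.num_nonneg.2 hq)
    have h6 : ((q.num.toNat : ℤ) : ℝ) = (q.num : ℝ) := by rw [h5]
    rw [Int.cast_natCast] at h6
    rw [h6]
    exact Rat.cast_def q
  rw [h4, div_mul_eq_mul_div, ← Nat.cast_mul, Nat.floor_div_eq_div]

end Red

/-- `BSP_c` is NP-hard on perfect graphs. -/
theorem npHard_bsp (c : ℝ) (hc : 4 ≤ c)
    (h : (∃ q : ℚ, c = q) ∨ PolyTime (fun t : UNat => UNat.ofNat ⌊c * (t.toNat : ℝ)⌋₊)) :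
    NPHard (BEnc.enc (α := {I : GraphCode // IsPerfect I.graph})) (fun I => HasBSP c I.1.graph) := by
  have h' : PolyTime (fun t : UNat => UNat.ofNat ⌊c * (t.toNat : ℝ)⌋₊) := by
    rcases h with ⟨q, rfl⟩ | h
    · apply Red.polyTime_rat
      have h1 : (4 : ℝ) ≤ q := hc
      have h2 : (4 : ℚ) ≤ q := by exact_mod_cast h1
      linarith
    · exact h
  exact npHard_of_clique (fun I => ⟨Red.gg c I, Red.gg_perfect c I⟩)
    (PolyTime.subtypeMk (Red.polyTime_gg h') _) (fun I hI => Red.gg_iff hc I hI)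

end Pool.Agent.H36.Skew
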