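import Pool.Agent.H36.Skew.Reduction
import Pool.Agent.H72.NP.CliqueHard

set_option autoImplicit false

namespace Pool.Agent.H36.Skew

open SimpleGraph Pool.Agent.H80.Poly Pool.Agent.H72.NP

/-- Codes of graphs: the number `n` of vertices in unary, and a list of pairs of numbers. -/
abbrev GraphCode := UNat × List (ℕ × ℕ)

/-- The graph with code `I`: its vertices are `0, …, n - 1`, and two different vertices `u`, `v`
are adjacent if and only if `(u, v)` or `(v, u)` is in the list. -/
def GraphCode.graph (I : GraphCode) : SimpleGraph (Fin I.1.toNat) :=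
  SimpleGraph.fromRel (fun u v => ((u : ℕ), (v : ℕ)) ∈ I.2)

/-- The graph `G` with `n` vertices has a skew partition of balanced size with constant `c`: a skew
partition all of whose four parts have at least `n / c` vertices. -/
def HasBSP (c : ℝ) {V : Type} [Fintype V] (G : SimpleGraph V) : Prop :=
  ∃ p : V → Fin 4, IsSkewPartition G p ∧
    ∀ i, (Fintype.card V : ℝ) / c ≤ ((Finset.univ.filter (fun v => p v = i)).card : ℝ)

namespace Red

/-- adjacency of `u < v` in the graph of the reduction -/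
def adj (E : List (ℕ × ℕ)) (a b u v : ℕ) : Bool :=
  decide (v < a) || (decide (a ≤ u) || (decide (b ≤ v) || (decide (v - a < E.length) &&
    (decide (u = (E.getD (v - a) (0, 0)).1) || decide (u = (E.getD (v - a) (0, 0)).2)))))

theorem adj_iff {E : List (ℕ × ℕ)} {a b u v : ℕ} : adj E a b u v = true ↔
    v < a ∨ a ≤ u ∨ b ≤ v ∨ (v - a < E.length ∧
      (u = (E.getD (v - a) (0, 0)).1 ∨ u = (E.getD (v - a) (0, 0)).2)) := by
  simp [adj, Bool.or_eq_true, Bool.and_eq_true]

/-- the list of the pairs `u < v < n` with `f u v` -/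
def edgeList (n : ℕ) (f : ℕ → ℕ → Bool) : List (ℕ × ℕ) :=
  (List.range n).flatMap fun v => ((List.range v).filter fun u => f u v).map fun u => (u, v)

theorem mem_edgeList {n : ℕ} {f : ℕ → ℕ → Bool} {u v : ℕ} :
    (u, v) ∈ edgeList n f ↔ v < n ∧ u < v ∧ f u v = true := by
  unfold edgeList
  simp only [List.mem_flatMap, List.mem_range, List.mem_map, List.mem_filter, Prod.mk.injEq]
  constructor
  · rintro ⟨v', hv, u', ⟨hu, ha⟩, rfl, rfl⟩
    exact ⟨hv, hu, ha⟩
  · rintro ⟨h1, h2, h3⟩
    exact ⟨v, h1, u, ⟨h2, h3⟩, rfl, rfl⟩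

/-- the code of the graph of the reduction -/
def code (E : List (ℕ × ℕ)) (a b n : ℕ) : GraphCode := (UNat.ofNat n, edgeList n (adj E a b))

/-- the graph of the reduction -/
def gr (E : List (ℕ × ℕ)) (a b n : ℕ) : SimpleGraph (Fin n) :=
  SimpleGraph.fromRel (fun u v => ((u : ℕ), (v : ℕ)) ∈ edgeList n (adj E a b))

theorem code_adj {E : List (ℕ × ℕ)} {a b n : ℕ} (x y : Fin n) :
    (gr E a b n).Adj x y ↔
      (x.val < y.val ∧ adj E a b x y = true) ∨ (y.val < x.val ∧ adj E a b y x = true) := by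
  have h0 : (gr E a b n).Adj x y ↔ x ≠ y ∧
      (((x : ℕ), (y : ℕ)) ∈ edgeList n (adj E a b) ∨ ((y : ℕ), (x : ℕ)) ∈ edgeList n (adj E a b)) :=
    SimpleGraph.fromRel_adj _ x y
  rw [h0, mem_edgeList, mem_edgeList]
  have hx := x.isLt
  have hy := y.isLt
  constructor
  · rintro ⟨-, ⟨-, h1, h2⟩ | ⟨-, h1, h2⟩⟩
    · exact Or.inl ⟨h1, h2⟩
    · exact Or.inr ⟨h1, h2⟩
  · rintro (⟨h1, h2⟩ | ⟨h1, h2⟩)
    · exact ⟨fun h => by rw [h] at h1; exact lt_irrefl _ h1, Or.inl ⟨hy, h1, h2⟩⟩
    · exact ⟨fun h => by rw [h] at h1; exact lt_irrefl _ h1, Or.inr ⟨hx, h1, h2⟩⟩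

theorem code_adj_of {E : List (ℕ × ℕ)} {a b n : ℕ} {x y : Fin n} (hne : x ≠ y)
    (h : ∀ u v : Fin n, (u = x ∧ v = y ∨ u = y ∧ v = x) → u.val < v.val →
      adj E a b u v = true) : (gr E a b n).Adj x y := by
  rw [code_adj]
  rcases lt_trichotomy x.val y.val with h1 | h1 | h1
  · exact Or.inl ⟨h1, h x y (Or.inl ⟨rfl, rfl⟩) h1⟩
  · exact absurd (Fin.ext h1) hne
  · exact Or.inr ⟨h1, h y x (Or.inr ⟨rfl, rfl⟩) h1⟩

theorem code_coBip (E : List (ℕ × ℕ)) (a b n : ℕ) : IsCoBip (gr E a b n) := by
  refine ⟨{x : Fin n | x.val < a}, ?_, ?_⟩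
  · intro x hx y hy hne
    have hx' : x.val < a := hx
    have hy' : y.val < a := hy
    apply code_adj_of hne
    rintro u v h -
    rw [adj_iff]
    left
    rcases h with ⟨-, rfl⟩ | ⟨-, rfl⟩
    · exact hy'
    · exact hx'
  · intro x hx y hy hne
    have hx' : ¬ x.val < a := hx
    have hy' : ¬ y.val < a := hy
    apply code_adj_of hne
    rintro u v h -
    rw [adj_iff]
    right; left
    rcases h with ⟨rfl, -⟩ | ⟨rfl, -⟩
    · exact not_lt.1 hx'
    · exact not_lt.1 hy'

theorem card_filter_lt {n : ℕ} (p : ℕ → Prop) [DecidablePred p] :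
    (Finset.univ.filter (fun x : Fin n => p x.val)).card = ((Finset.range n).filter p).card := by
  rw [← Finset.card_map Fin.valEmbedding]
  congr 1
  ext i
  simp only [Finset.mem_map, Finset.mem_filter, Finset.mem_univ, true_and, Fin.valEmbedding_apply,
    Finset.mem_range]
  constructor
  · rintro ⟨x, hx, rfl⟩
    exact ⟨x.isLt, hx⟩
  · rintro ⟨h1, h2⟩
    exact ⟨⟨i, h1⟩, h2, rfl⟩

/-- The combinatorial core of the reduction. -/
theorem main {m k n T a b : ℕ} {E : List (ℕ × ℕ)} (hE : IsEdgeList m E) (hk : 2 ≤ k) (hkm : k ≤ m)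
    (hT : m + k + E.length + k.choose 2 < T) (ha : a = T + k)
    (hb : b + k.choose 2 = a + (E.length + T)) (hn : 4 * T ≤ n) :
    (∃ p : Fin n → Fin 4, IsSkewPartition (gr E a b n) p ∧
      ∀ i, T ≤ (Finset.univ.filter (fun v => p v = i)).card) ↔ HasClique m E k := by
  classical
  have hm0 : 0 < m := by omega
  set G := gr E a b n with hG
  set P : Finset (Fin n) := Finset.univ.filter (fun x : Fin n => x.val < a) with hP
  set Q : Finset (Fin n) := Finset.univ.filter (fun x : Fin n => a ≤ x.val ∧ x.val < b) with hQ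
  set U : Finset (Fin n) := Finset.univ.filter (fun x : Fin n => b ≤ x.val) with hU
  set E0 : Finset (Fin n) := Finset.univ.filter (fun x : Fin n => a ≤ x.val ∧
    x.val < a + E.length) with hE0
  have mP : ∀ x, x ∈ P ↔ x.val < a := fun x => by simp [hP]
  have mQ : ∀ x, x ∈ Q ↔ a ≤ x.val ∧ x.val < b := fun x => by simp [hQ]
  have mU : ∀ x, x ∈ U ↔ b ≤ x.val := fun x => by simp [hU]
  have mE0 : ∀ x, x ∈ E0 ↔ a ≤ x.val ∧ x.val < a + E.length := fun x => by simp [hE0]
  have hab : a + E.length ≤ b := by omega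
  have hbn : b + T ≤ n := by omega
  have cP : P.card = a := by
    rw [hP, card_filter_lt (fun i => i < a)]
    have : (Finset.range n).filter (fun i => i < a) = Finset.range a := by
      ext i
      simp only [Finset.mem_filter, Finset.mem_range]
      omega
    rw [this, Finset.card_range]
  have cQ : Q.card = b - a := by
    rw [hQ, card_filter_lt (fun i => a ≤ i ∧ i < b)]
    have : (Finset.range n).filter (fun i => a ≤ i ∧ i < b) = Finset.Ico a b := by
      ext i
      simp only [Finset.mem_filter, Finset.mem_range, Finset.mem_Ico]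
      omega
    rw [this, Nat.card_Ico]
  have cU : U.card = n - b := by
    rw [hU, card_filter_lt (fun i => b ≤ i)]
    have : (Finset.range n).filter (fun i => b ≤ i) = Finset.Ico b n := by
      ext i
      simp only [Finset.mem_filter, Finset.mem_range, Finset.mem_Ico]
      omega
    rw [this, Nat.card_Ico]
  have cE0 : E0.card = E.length := by
    rw [hE0, card_filter_lt (fun i => a ≤ i ∧ i < a + E.length)]
    have : (Finset.range n).filter (fun i => a ≤ i ∧ i < a + E.length) =
        Finset.Ico a (a + E.length) := by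
      ext i
      simp only [Finset.mem_filter, Finset.mem_range, Finset.mem_Ico]
      omega
    rw [this, Nat.card_Ico]
    omega
  have hcliq : ∀ x y : Fin n, x ≠ y → (x.val < a ∧ y.val < a ∨ a ≤ x.val ∧ a ≤ y.val ∨ b ≤ x.val) →
      G.Adj x y := by
    intro x y hne h
    apply code_adj_of hne
    rintro u v huv hlt
    rw [adj_iff]
    rcases huv with ⟨rfl, rfl⟩ | ⟨rfl, rfl⟩ <;> omega
  rw [bsp_iff G (P := P) (Q := Q) (U := U) ?_ ?_ ?_ ?_ ?_ ?_ ?_ (by omega) (by omega)
    (by rw [Fintype.card_fin]; exact hn)]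
  rotate_left
  · rw [Finset.disjoint_left]
    intro x hx hx'
    rw [mP] at hx
    rw [mQ] at hx'
    omega
  · rw [Finset.disjoint_left]
    intro x hx hx'
    rw [mP] at hx
    rw [mU] at hx'
    omega
  · rw [Finset.disjoint_left]
    intro x hx hx'
    rw [mQ] at hx
    rw [mU] at hx'
    omega
  · intro x
    rw [mP, mQ, mU]
    omega
  · intro x hx y hy hne
    rw [mP] at hx hy
    exact hcliq x y hne (Or.inl ⟨hx, hy⟩)
  · intro x hx y hy hne
    rw [mQ] at hx hy
    exact hcliq x y hne (Or.inr (Or.inl ⟨hx.1, hy.1⟩))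
  · intro x hx y hne
    rw [mU] at hx
    exact hcliq x y hne (Or.inr (Or.inr hx))
  -- the biclique problem
  have hmn : m ≤ n := by omega
  set ι : Fin m → Fin n := Fin.castLE hmn with hι
  have hιv : ∀ i, (ι i).val = i.val := fun i => rfl
  set d0 : Fin m := ⟨0, hm0⟩ with hd0
  set vtx : ℕ → Fin m := fun u => if h : u < m then ⟨u, h⟩ else d0 with hvtx
  have hvtxv : ∀ u, u < m → (vtx u).val = u := by
    intro u hu
    simp only [hvtx, dif_pos hu]
  set ep : Fin n → Sym2 (Fin m) := fun x =>
    s(vtx (E.getD (x.val - a) (0, 0)).1, vtx (E.getD (x.val - a) (0, 0)).2) with hep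
  set G0 : SimpleGraph (Fin m) := SimpleGraph.fromRel (fun u v => ((u : ℕ), (v : ℕ)) ∈ E) with hG0
  have hedge : ∀ x ∈ E0, ∃ u v : Fin m, u.val < v.val ∧
      E.getD (x.val - a) (0, 0) = (u.val, v.val) ∧ ep x = s(u, v) ∧ (u.val, v.val) ∈ E := by
    intro x hx
    rw [mE0] at hx
    have hlt : x.val - a < E.length := by omega
    have hmem : E.getD (x.val - a) (0, 0) ∈ E := by
      rw [List.getD_eq_getElem _ _ hlt]
      exact List.getElem_mem hlt
    obtain ⟨h1, h2⟩ := hE.2 _ hmem
    have h3 : (E.getD (x.val - a) (0, 0)).1 < m := h1.trans h2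
    refine ⟨vtx (E.getD (x.val - a) (0, 0)).1, vtx (E.getD (x.val - a) (0, 0)).2, ?_, ?_, rfl, ?_⟩
    · rw [hvtxv _ h3, hvtxv _ h2]; exact h1
    · rw [hvtxv _ h3, hvtxv _ h2]
    · rw [hvtxv _ h3, hvtxv _ h2]; exact hmem
  rw [biclique_iff G G0 ι (P := P) (Q := Q) (E0 := E0) (ep := ep) (k := k) (T := T) ?_ ?_ ?_ ?_ ?_
    ?_ hk ?_ ?_]
  rotate_left
  · intro i j hij
    apply Fin.ext
    have := congrArg Fin.val hij
    exact this
  · intro i
    rw [mP, hιv]
    have := i.isLt
    omega
  · intro x hx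
    rw [mE0] at hx
    rw [mQ]
    omega
  · intro x hx y hy hxy
    rw [Finset.mem_coe] at hx hy
    obtain ⟨u, v, huv, he, hes, -⟩ := hedge x hx
    obtain ⟨u', v', huv', he', hes', -⟩ := hedge y hy
    rw [hes, hes', Sym2.eq_iff] at hxy
    have hpair : (u, v) = (u', v') := by
      rcases hxy with ⟨rfl, rfl⟩ | ⟨rfl, rfl⟩
      · rfl
      · omega
    rw [Prod.mk.injEq] at hpair
    rw [hpair.1, hpair.2, ← he'] at he
    rw [mE0] at hx hy
    have hxl : x.val - a < E.length := by omega
    have hyl : y.val - a < E.length := by omega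
    rw [List.getD_eq_getElem _ _ hxl, List.getD_eq_getElem _ _ hyl] at he
    have := (hE.1.getElem_inj_iff).1 he
    apply Fin.ext
    omega
  · intro s
    constructor
    · refine Sym2.ind (fun i j => ?_) s
      intro hs
      rw [SimpleGraph.mem_edgeSet, hG0, SimpleGraph.fromRel_adj] at hs
      have key : ∀ i j : Fin m, ((i : ℕ), (j : ℕ)) ∈ E → ∃ q ∈ E0, ep q = s(i, j) := by
        intro i j hij
        obtain ⟨l, hl, hle⟩ := List.getElem_of_mem hij
        have hln : a + l < n := by omega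
        refine ⟨⟨a + l, hln⟩, ?_, ?_⟩
        · rw [mE0]
          constructor
          · show a ≤ a + l; omega
          · show a + l < a + E.length; omega
        · simp only [hep]
          have e1 : a + l - a = l := by omega
          rw [e1, List.getD_eq_getElem _ _ hl, hle]
          simp only
          have h1 : vtx (i : ℕ) = i := Fin.ext (hvtxv _ i.isLt)
          have h2 : vtx (j : ℕ) = j := Fin.ext (hvtxv _ j.isLt)
          rw [h1, h2]
      rcases hs.2 with h | h
      · exact key i j h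
      · obtain ⟨q, hq, he⟩ := key j i h
        exact ⟨q, hq, by rw [he, Sym2.eq_swap]⟩
    · rintro ⟨q, hq, rfl⟩
      obtain ⟨u, v, huv, he, hes, hmem⟩ := hedge q hq
      rw [hes, SimpleGraph.mem_edgeSet, hG0, SimpleGraph.fromRel_adj]
      exact ⟨fun h => by rw [h] at huv; exact lt_irrefl _ huv, Or.inl hmem⟩
  · intro x hx y hy
    rw [mP] at hx
    rw [mQ] at hy
    have hlt : x.val < y.val := by omega
    rw [hG, code_adj]
    constructor
    · rintro (⟨-, h⟩ | ⟨h, -⟩)
      swap
      · omega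
      rw [adj_iff] at h
      have h2 : y.val - a < E.length ∧ (x.val = (E.getD (y.val - a) (0, 0)).1 ∨
          x.val = (E.getD (y.val - a) (0, 0)).2) := by
        rcases h with h | h | h | h
        · omega
        · omega
        · omega
        · exact h
      have hyE : y ∈ E0 := by
        rw [mE0]
        omega
      obtain ⟨u, v, huv, he, hes, -⟩ := hedge y hyE
      rw [he] at h2
      rcases h2.2 with h3 | h3
      · refine ⟨u, Fin.ext ?_, hyE, ?_⟩
        · rw [hιv]; exact h3
        · rw [hes]; exact Sym2.mem_mk_left u v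
      · refine ⟨v, Fin.ext ?_, hyE, ?_⟩
        · rw [hιv]; exact h3
        · rw [hes]; exact Sym2.mem_mk_right u v
    · rintro ⟨i, rfl, hyE, hi⟩
      left
      refine ⟨hlt, ?_⟩
      rw [adj_iff]
      right; right; right
      obtain ⟨u, v, huv, he, hes, -⟩ := hedge y hyE
      rw [mE0] at hyE
      refine ⟨by omega, ?_⟩
      rw [hes, Sym2.mem_iff] at hi
      rw [he, hιv]
      rcases hi with rfl | rfl
      · exact Or.inl rfl
      · exact Or.inr rfl
  · rw [cP, ha]
  · rw [cQ, cE0]
    omega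
  -- cliques
  constructor
  · rintro ⟨S, hS⟩
    refine ⟨S.map Fin.valEmbedding, ?_, ?_, ?_⟩
    · rw [Finset.card_map, hS.card_eq]
    · intro u hu
      obtain ⟨x, -, rfl⟩ := Finset.mem_map.1 hu
      exact x.isLt
    · intro u hu v hv huv
      obtain ⟨x, hx, rfl⟩ := Finset.mem_map.1 hu
      obtain ⟨y, hy, rfl⟩ := Finset.mem_map.1 hv
      simp only [Fin.valEmbedding_apply] at huv ⊢
      have hne : x ≠ y := fun h => by rw [h] at huv; exact lt_irrefl _ huv
      have h1 : G0.Adj x y := hS.isClique hx hy hne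
      rw [hG0, SimpleGraph.fromRel_adj] at h1
      rcases h1.2 with h | h
      · exact h
      · have := (hE.2 _ h).1
        simp only at this
        omega
  · rintro ⟨s, hs, hsm, hsE⟩
    refine ⟨Finset.univ.filter (fun x : Fin m => x.val ∈ s), ?_⟩
    constructor
    · intro x hx y hy hne
      simp only [Finset.coe_filter, Finset.mem_univ, true_and, Set.mem_ofPred_eq] at hx hy
      rw [hG0, SimpleGraph.fromRel_adj]
      refine ⟨hne, ?_⟩
      rcases lt_trichotomy x.val y.val with h | h | h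
      · exact Or.inl (hsE _ hx _ hy h)
      · exact absurd (Fin.ext h) hne
      · exact Or.inr (hsE _ hy _ hx h)
    · rw [card_filter_lt (fun i => i ∈ s), ← hs]
      congr 1
      ext i
      simp only [Finset.mem_filter, Finset.mem_range]
      exact ⟨fun h => h.2, fun h => ⟨hsm i h, h⟩⟩

end Red

end Pool.Agent.H36.Skew
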