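import Mathlib

set_option autoImplicit false

namespace Pool.Agent.H36.Skew

open SimpleGraph

/-- A graph is perfect if every induced subgraph has chromatic number equal to its clique
number. -/
def IsPerfect {V : Type} (G : SimpleGraph V) : Prop :=
  ∀ S : Set V, (G.induce S).chromaticNumber = ((G.induce S).cliqueNum : ℕ∞)

/-- The vertex set is covered by two cliques (complement of a bipartite graph). -/
def IsCoBip {V : Type} (G : SimpleGraph V) : Prop :=
  ∃ P : Set V, G.IsClique P ∧ G.IsClique Pᶜ

lemma exists_matching {V : Type} [Finite V] (G : SimpleGraph V) (P : Set V)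
    (hP : G.IsClique P) (K : Finset V) (hK : G.IsClique (K : Set V))
    (hmax : ∀ t : Finset V, G.IsClique (t : Set V) → t.card ≤ K.card) :
    ∃ f : {x : V // x ∈ P ∧ x ∉ K} → V, Function.Injective f ∧
      ∀ x, f x ∈ K ∧ f x ∉ P ∧ ¬ G.Adj x.1 (f x) := by
  classical
  have := Fintype.ofFinite V
  let t : {x : V // x ∈ P ∧ x ∉ K} → Finset V :=
    fun x => K.filter (fun y => y ∉ P ∧ ¬ G.Adj x.1 y)
  have hall : ∀ s : Finset {x : V // x ∈ P ∧ x ∉ K}, s.card ≤ (s.biUnion t).card := by
    intro s
    set Z : Finset V := s.map ⟨Subtype.val, Subtype.val_injective⟩ with hZ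
    have hZcard : Z.card = s.card := Finset.card_map _
    have hZP : ∀ z ∈ Z, z ∈ P ∧ z ∉ K ∧ ∃ x ∈ s, x.1 = z := by
      intro z hz
      rw [hZ, Finset.mem_map] at hz
      obtain ⟨x, hx, rfl⟩ := hz
      exact ⟨x.2.1, x.2.2, x, hx, rfl⟩
    set K' : Finset V := K \ s.biUnion t with hK'
    have hdisj : Disjoint K' Z := by
      rw [Finset.disjoint_left]
      intro z hz hz'
      exact (hZP z hz').2.1 (Finset.mem_sdiff.1 hz).1
    have hclique : G.IsClique ((K' ∪ Z : Finset V) : Set V) := by
      intro a ha b hb hab
      simp only [Finset.coe_union, Set.mem_union, Finset.mem_coe] at ha hb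
      have key : ∀ a b : V, a ∈ K' → b ∈ Z → a ≠ b → G.Adj a b := by
        intro a b ha hb hab
        obtain ⟨ha1, ha2⟩ := Finset.mem_sdiff.1 ha
        obtain ⟨hb1, hb2, x, hx, hxb⟩ := hZP b hb
        by_cases haP : a ∈ P
        · exact hP haP hb1 hab
        · by_contra hcon
          apply ha2
          rw [Finset.mem_biUnion]
          refine ⟨x, hx, ?_⟩
          simp only [t, Finset.mem_filter]
          exact ⟨ha1, haP, by rw [hxb]; exact fun h => hcon h.symm⟩
      rcases ha with ha | ha <;> rcases hb with hb | hb
      · exact hK (Finset.mem_sdiff.1 ha).1 (Finset.mem_sdiff.1 hb).1 hab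
      · exact key a b ha hb hab
      · exact (key b a hb ha hab.symm).symm
      · exact hP (hZP a ha).1 (hZP b hb).1 hab
    have h1 := hmax _ hclique
    rw [Finset.card_union_of_disjoint hdisj, hZcard] at h1
    have h2 : K.card ≤ K'.card + (s.biUnion t).card := by
      rw [hK']
      have := Finset.card_le_card_sdiff_add_card (s := K) (t := s.biUnion t)
      exact this
    omega
  obtain ⟨f, hf1, hf2⟩ := (Finset.all_card_le_biUnion_card_iff_exists_injective t).1 hall
  refine ⟨f, hf1, fun x => ?_⟩
  have := hf2 x
  simp only [t, Finset.mem_filter] at this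
  exact ⟨this.1, this.2.1, this.2.2⟩

lemma chromatic_eq_of_coBip {V : Type} [Finite V] (G : SimpleGraph V) (h : IsCoBip G) :
    G.chromaticNumber = (G.cliqueNum : ℕ∞) := by
  classical
  have := Fintype.ofFinite V
  obtain ⟨P, hP, hPc⟩ := h
  obtain ⟨K, hK⟩ := G.exists_isNClique_cliqueNum
  have hmax : ∀ t : Finset V, G.IsClique (t : Set V) → t.card ≤ K.card := by
    intro t ht
    rw [hK.card_eq]
    exact IsClique.card_le_cliqueNum (tc := ht)
  obtain ⟨f, hf1, hf2⟩ := exists_matching G P hP K hK.isClique hmax
  obtain ⟨g, hg1, hg2⟩ := exists_matching G Pᶜ hPc K hK.isClique hmax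
  apply le_antisymm
  · let col : V → {x // x ∈ K} := fun v =>
      if hv : v ∈ K then ⟨v, hv⟩
      else if hvP : v ∈ P then ⟨f ⟨v, hvP, hv⟩, (hf2 _).1⟩
      else ⟨g ⟨v, hvP, hv⟩, (hg2 _).1⟩
    have hcol : ∀ {u v : V}, G.Adj u v → col u ≠ col v := by
      -- an auxiliary asymmetric statement
      have aux : ∀ u v : V, G.Adj u v → u ∈ K → v ∉ K → col u ≠ col v := by
        intro u v huv hu hv heq
        simp only [col, hu, hv, dif_pos, dif_neg, not_false_eq_true] at heq
        by_cases hvP : v ∈ P
        · simp only [hvP, dif_pos, Subtype.mk.injEq] at heq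
          have := (hf2 ⟨v, hvP, hv⟩).2.2
          rw [← heq] at this
          exact this huv.symm
        · simp only [hvP, dif_neg, not_false_eq_true, Subtype.mk.injEq] at heq
          have := (hg2 ⟨v, hvP, hv⟩).2.2
          rw [← heq] at this
          exact this huv.symm
      have aux2 : ∀ u v : V, G.Adj u v → u ∉ K → v ∉ K → u ∈ P → v ∉ P → col u ≠ col v := by
        intro u v huv hu hv huP hvP heq
        simp only [col, hu, hv, huP, hvP, dif_pos, dif_neg, not_false_eq_true,
          Subtype.mk.injEq] at heq
        have h1 := (hf2 ⟨u, huP, hu⟩).2.1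
        have h2 := (hg2 ⟨v, hvP, hv⟩).2.1
        rw [heq] at h1
        exact h2 h1
      intro u v huv
      by_cases hu : u ∈ K
      · by_cases hv : v ∈ K
        · intro heq
          simp only [col, hu, hv, dif_pos, Subtype.mk.injEq] at heq
          exact huv.ne heq
        · exact aux u v huv hu hv
      · by_cases hv : v ∈ K
        · exact (aux v u huv.symm hv hu).symm
        · by_cases huP : u ∈ P
          · by_cases hvP : v ∈ P
            · intro heq
              simp only [col, hu, hv, huP, hvP, dif_pos, dif_neg, not_false_eq_true,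
                Subtype.mk.injEq] at heq
              have := hf1 heq
              simp only [Subtype.mk.injEq] at this
              exact huv.ne this
            · exact aux2 u v huv hu hv huP hvP
          · by_cases hvP : v ∈ P
            · exact (aux2 v u huv.symm hv hu hvP huP).symm
            · intro heq
              simp only [col, hu, hv, huP, hvP, dif_neg, not_false_eq_true,
                Subtype.mk.injEq] at heq
              have := hg1 heq
              simp only [Subtype.mk.injEq] at this
              exact huv.ne this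
    have hc : G.Colorable K.card := by
      have := (Coloring.mk col hcol).colorable
      simpa using this
    have h1 := hc.chromaticNumber_le
    rw [hK.card_eq] at h1
    exact h1
  · exact cliqueNum_le_chromaticNumber

/-- Complements of bipartite graphs are perfect. -/
lemma IsCoBip.isPerfect {V : Type} [Finite V] {G : SimpleGraph V} (h : IsCoBip G) :
    IsPerfect G := by
  intro S
  apply chromatic_eq_of_coBip
  obtain ⟨P, hP, hPc⟩ := h
  refine ⟨{x | x.1 ∈ P}, ?_, ?_⟩
  · intro a ha b hb hab
    exact hP ha hb (fun h => hab (Subtype.ext h))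
  · intro a ha b hb hab
    exact hPc ha hb (fun h => hab (Subtype.ext h))

end Pool.Agent.H36.Skew
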