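import Pool.Agent.H36.Skew.Perfect

set_option autoImplicit false

namespace Pool.Agent.H36.Skew

open SimpleGraph

/-- `p` is a skew partition of `G` into the parts `A = p⁻¹ 0`, `B = p⁻¹ 1`, `C = p⁻¹ 2`,
`D = p⁻¹ 3`: all four parts are nonempty, there are no edges between `A` and `B`, and all
edges between `C` and `D`. -/
def IsSkewPartition {V : Type} (G : SimpleGraph V) (p : V → Fin 4) : Prop :=
  (∀ i, ∃ v, p v = i) ∧
  (∀ u v, p u = 0 → p v = 1 → ¬ G.Adj u v) ∧
  (∀ u v, p u = 2 → p v = 3 → G.Adj u v)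

lemma bsp_iff {V : Type} [Fintype V] [DecidableEq V] (G : SimpleGraph V) {P Q U : Finset V}
    (hPQ : Disjoint P Q) (hPU : Disjoint P U) (hQU : Disjoint Q U)
    (hcov : ∀ v, v ∈ P ∨ v ∈ Q ∨ v ∈ U)
    (cP : ∀ a ∈ P, ∀ b ∈ P, a ≠ b → G.Adj a b)
    (cQ : ∀ a ∈ Q, ∀ b ∈ Q, a ≠ b → G.Adj a b)
    (cU : ∀ a ∈ U, ∀ b, a ≠ b → G.Adj a b)
    {T : ℕ} (hT : 0 < T) (hUT : T ≤ U.card) (h4 : 4 * T ≤ Fintype.card V) :
    (∃ p : V → Fin 4, IsSkewPartition G p ∧ ∀ i, T ≤ (Finset.univ.filter (fun v => p v = i)).card) ↔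
    ∃ A ⊆ P, ∃ B ⊆ Q, T ≤ A.card ∧ T ≤ B.card ∧ ∀ a ∈ A, ∀ b ∈ B, ¬ G.Adj a b := by
  constructor
  · rintro ⟨p, ⟨-, hAB, -⟩, hcard⟩
    set A := Finset.univ.filter (fun v => p v = 0) with hA
    set B := Finset.univ.filter (fun v => p v = 1) with hB
    have hAB' : ∀ a ∈ A, ∀ b ∈ B, ¬ G.Adj a b := by
      intro a ha b hb
      simp only [hA, hB, Finset.mem_filter, Finset.mem_univ, true_and] at ha hb
      exact hAB a b ha hb
    have hne : ∀ a ∈ A, ∀ b ∈ B, a ≠ b := by
      intro a ha b hb h
      simp only [hA, hB, Finset.mem_filter, Finset.mem_univ, true_and] at ha hb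
      rw [h, hb] at ha
      exact absurd ha (by decide)
    have hAc := hcard 0
    have hBc := hcard 1
    obtain ⟨a0, ha0⟩ : A.Nonempty := Finset.card_pos.1 (lt_of_lt_of_le hT hAc)
    obtain ⟨b0, hb0⟩ : B.Nonempty := Finset.card_pos.1 (lt_of_lt_of_le hT hBc)
    have hAU : ∀ a ∈ A, a ∉ U := fun a ha h => hAB' a ha b0 hb0 (cU a h b0 (hne a ha b0 hb0))
    have hBU : ∀ b ∈ B, b ∉ U := fun b hb h =>
      hAB' a0 ha0 b hb (cU b h a0 (hne a0 ha0 b hb).symm).symm
    rcases hcov a0 with ha | ha | ha
    · have hBQ : B ⊆ Q := by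
        intro b hb
        rcases hcov b with h | h | h
        · exact absurd (cP a0 ha b h (hne a0 ha0 b hb)) (hAB' a0 ha0 b hb)
        · exact h
        · exact absurd h (hBU b hb)
      have hAP : A ⊆ P := by
        intro a ha'
        rcases hcov a with h | h | h
        · exact h
        · exact absurd (cQ a h b0 (hBQ hb0) (hne a ha' b0 hb0)) (hAB' a ha' b0 hb0)
        · exact absurd h (hAU a ha')
      exact ⟨A, hAP, B, hBQ, hAc, hBc, hAB'⟩
    · have hBP : B ⊆ P := by
        intro b hb
        rcases hcov b with h | h | h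
        · exact h
        · exact absurd (cQ a0 ha b h (hne a0 ha0 b hb)) (hAB' a0 ha0 b hb)
        · exact absurd h (hBU b hb)
      have hAQ : A ⊆ Q := by
        intro a ha'
        rcases hcov a with h | h | h
        · exact absurd (cP a h b0 (hBP hb0) (hne a ha' b0 hb0)) (hAB' a ha' b0 hb0)
        · exact h
        · exact absurd h (hAU a ha')
      exact ⟨B, hBP, A, hAQ, hBc, hAc, fun b hb a ha h => hAB' a ha b hb h.symm⟩
    · exact absurd ha (hAU a0 ha0)
  · rintro ⟨A0, hA0, B0, hB0, hAc0, hBc0, hAB0⟩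
    obtain ⟨A, hAA0, hAc⟩ := Finset.exists_subset_card_eq hAc0
    obtain ⟨B, hBB0, hBc⟩ := Finset.exists_subset_card_eq hBc0
    obtain ⟨D, hDU, hDc⟩ := Finset.exists_subset_card_eq hUT
    have hAP := hAA0.trans hA0
    have hBQ := hBB0.trans hB0
    have dAB : Disjoint A B := Finset.disjoint_of_subset_left hAP (Finset.disjoint_of_subset_right hBQ hPQ)
    have dAD : Disjoint A D := Finset.disjoint_of_subset_left hAP (Finset.disjoint_of_subset_right hDU hPU)
    have dBD : Disjoint B D := Finset.disjoint_of_subset_left hBQ (Finset.disjoint_of_subset_right hDU hQU)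
    let p : V → Fin 4 := fun v => if v ∈ A then 0 else if v ∈ B then 1 else if v ∈ D then 3 else 2
    have p0 : ∀ v, p v = 0 ↔ v ∈ A := by
      intro v
      simp only [p]
      split_ifs <;> simp_all
    have p1 : ∀ v, p v = 1 ↔ v ∈ B := by
      intro v
      simp only [p]
      split_ifs with h1 h2 h3
      · simp only [Fin.isValue, zero_ne_one, false_iff]
        exact Finset.disjoint_left.1 dAB h1
      · simpa using h2
      · simpa using h2
      · simpa using h2
    have p3 : ∀ v, p v = 3 ↔ v ∈ D := by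
      intro v
      simp only [p]
      split_ifs with h1 h2 h3
      · have := Finset.disjoint_left.1 dAD h1
        simpa using this
      · have := Finset.disjoint_left.1 dBD h2
        simpa using this
      · simpa using h3
      · simpa using h3
    have p2 : ∀ v, p v = 2 ↔ v ∉ A ∪ B ∪ D := by
      intro v
      simp only [p, Finset.mem_union, not_or]
      split_ifs with h1 h2 h3 <;> simp_all
    have hcards : ∀ i, T ≤ (Finset.univ.filter (fun v => p v = i)).card := by
      intro i
      fin_cases i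
      · have : Finset.univ.filter (fun v => p v = 0) = A := by ext v; simp [p0]
        simpa [this] using hAc.ge
      · have : Finset.univ.filter (fun v => p v = 1) = B := by ext v; simp [p1]
        simpa [this] using hBc.ge
      · have : Finset.univ.filter (fun v => p v = 2) = (A ∪ B ∪ D)ᶜ := by
          ext v
          simp only [Finset.mem_filter, Finset.mem_univ, true_and, p2, Finset.mem_compl]
        have h5 : (A ∪ B ∪ D).card ≤ 3 * T := by
          have h6 := Finset.card_union_le (A ∪ B) D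
          have h7 := Finset.card_union_le A B
          omega
        show T ≤ (Finset.univ.filter (fun v => p v = 2)).card
        rw [this, Finset.card_compl]
        omega
      · have : Finset.univ.filter (fun v => p v = 3) = D := by ext v; simp [p3]
        simpa [this] using hDc.ge
    refine ⟨p, ⟨?_, ?_, ?_⟩, hcards⟩
    · intro i
      obtain ⟨v, hv⟩ := Finset.card_pos.1 (lt_of_lt_of_le hT (hcards i))
      exact ⟨v, (Finset.mem_filter.1 hv).2⟩
    · intro u v hu hv
      exact hAB0 u (hAA0 ((p0 u).1 hu)) v (hBB0 ((p1 v).1 hv))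
    · intro u v hu hv
      have hvD := (p3 v).1 hv
      have huD : u ∉ D := by
        have := (p2 u).1 hu
        simp only [Finset.mem_union, not_or] at this
        exact this.2
      exact (cU v (hDU hvD) u (fun h => huD (h ▸ hvD))).symm

lemma choose_two_lt {a b : ℕ} (h : a < b) (hb : 2 ≤ b) : a.choose 2 < b.choose 2 := by
  obtain ⟨c, rfl⟩ : ∃ c, b = c + 1 := ⟨b - 1, by omega⟩
  have h1 : a.choose 2 ≤ c.choose 2 := Nat.choose_le_choose 2 (by omega)
  have h2 : (c + 1).choose 2 = c.choose 1 + c.choose 2 := Nat.choose_succ_succ c 1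
  rw [h2, Nat.choose_one_right]
  omega

lemma biclique_iff {V : Type} [Fintype V] [DecidableEq V] (G : SimpleGraph V) {m : ℕ}
    (G0 : SimpleGraph (Fin m)) (ι : Fin m → V) (hι : Function.Injective ι)
    {P Q E0 : Finset V} (hιP : ∀ i, ι i ∈ P) (hE0 : E0 ⊆ Q) (ep : V → Sym2 (Fin m))
    (hinj : Set.InjOn ep (E0 : Set V))
    (hep : ∀ s : Sym2 (Fin m), s ∈ G0.edgeSet ↔ ∃ q ∈ E0, ep q = s)
    (hadj : ∀ a ∈ P, ∀ b ∈ Q, (G.Adj a b ↔ ∃ i, a = ι i ∧ b ∈ E0 ∧ i ∈ ep b))
    {T k : ℕ} (hk : 2 ≤ k) (hPc : P.card = T + k) (hQc : Q.card + k.choose 2 = E0.card + T) :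
    (∃ A ⊆ P, ∃ B ⊆ Q, T ≤ A.card ∧ T ≤ B.card ∧ ∀ a ∈ A, ∀ b ∈ B, ¬ G.Adj a b) ↔
      ∃ S : Finset (Fin m), G0.IsNClique k S := by
  classical
  constructor
  · rintro ⟨A, hA, B, hB, hAc, hBc, hAB⟩
    set S : Finset (Fin m) := Finset.univ.filter (fun i => ι i ∉ A) with hS
    have hSc : S.card ≤ k := by
      have h1 : S.image ι ⊆ P \ A := by
        intro v hv
        obtain ⟨i, hi, rfl⟩ := Finset.mem_image.1 hv
        exact Finset.mem_sdiff.2 ⟨hιP i, (Finset.mem_filter.1 hi).2⟩
      have h2 := Finset.card_le_card h1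
      rw [Finset.card_image_of_injective _ hι, Finset.card_sdiff_of_subset hA] at h2
      omega
    set F := B ∩ E0 with hF
    have hFc : k.choose 2 ≤ F.card := by
      have h1 : B \ E0 ⊆ Q \ E0 := Finset.sdiff_subset_sdiff hB (Finset.Subset.refl _)
      have h2 := Finset.card_le_card h1
      rw [Finset.card_sdiff_of_subset hE0] at h2
      have h3 : (B \ E0).card + F.card = B.card := by
        rw [hF]
        exact Finset.card_sdiff_add_card_inter B E0
      have h4 := Finset.card_le_card hE0
      omega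
    have hsub : F.image ep ⊆ S.offDiag.image (Function.uncurry Sym2.mk) := by
      intro s hs
      obtain ⟨b, hb, rfl⟩ := Finset.mem_image.1 hs
      obtain ⟨hbB, hbE⟩ := Finset.mem_inter.1 hb
      have hedge : ep b ∈ G0.edgeSet := (hep _).2 ⟨b, hbE, rfl⟩
      have hmem : ∀ i ∈ ep b, i ∈ S := by
        intro i hi
        rw [hS, Finset.mem_filter]
        refine ⟨Finset.mem_univ _, fun hiA => ?_⟩
        exact hAB _ hiA _ hbB ((hadj _ (hιP i) _ (hB hbB)).2 ⟨i, rfl, hbE, hi⟩)
      revert hedge hmem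
      refine Sym2.ind (fun i j => ?_) (ep b)
      intro hedge hmem
      rw [mem_edgeSet] at hedge
      refine Finset.mem_image.2 ⟨(i, j), ?_, rfl⟩
      rw [Finset.mem_offDiag]
      exact ⟨hmem i (Sym2.mem_mk_left i j), hmem j (Sym2.mem_mk_right i j), hedge.ne⟩
    have hFimg : (F.image ep).card = F.card := by
      apply Finset.card_image_of_injOn
      exact hinj.mono (by intro x hx; exact (Finset.mem_inter.1 hx).2)
    have hle := Finset.card_le_card hsub
    rw [Sym2.card_image_offDiag, hFimg] at hle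
    have hSk : S.card = k := by
      by_contra hne
      have := choose_two_lt (lt_of_le_of_ne hSc hne) hk
      omega
    have heq : F.image ep = S.offDiag.image (Function.uncurry Sym2.mk) := by
      apply Finset.eq_of_subset_of_card_le hsub
      rw [Sym2.card_image_offDiag, hFimg, hSk]
      exact hFc
    refine ⟨S, ?_, hSk⟩
    intro i hi j hj hij
    have h1 : s(i, j) ∈ S.offDiag.image (Function.uncurry Sym2.mk) :=
      Finset.mem_image.2 ⟨(i, j), Finset.mem_offDiag.2 ⟨hi, hj, hij⟩, rfl⟩
    rw [← heq] at h1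
    obtain ⟨b, hb, hbe⟩ := Finset.mem_image.1 h1
    have h2 : s(i, j) ∈ G0.edgeSet := (hep _).2 ⟨b, (Finset.mem_inter.1 hb).2, hbe⟩
    exact h2
  · rintro ⟨S, hS⟩
    set F := E0.filter (fun q => ep q ∈ S.offDiag.image (Function.uncurry Sym2.mk)) with hF
    have hFc : F.card = k.choose 2 := by
      have h1 : F.image ep = S.offDiag.image (Function.uncurry Sym2.mk) := by
        apply Finset.Subset.antisymm
        · intro s hs
          obtain ⟨q, hq, rfl⟩ := Finset.mem_image.1 hs
          exact (Finset.mem_filter.1 hq).2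
        · intro s hs
          obtain ⟨⟨i, j⟩, hij, rfl⟩ := Finset.mem_image.1 hs
          have hij' := Finset.mem_offDiag.1 hij
          have hadj' : G0.Adj i j := hS.isClique hij'.1 hij'.2.1 hij'.2.2
          obtain ⟨q, hq, hqe⟩ := (hep s(i, j)).1 hadj'
          refine Finset.mem_image.2 ⟨q, ?_, hqe⟩
          rw [hF, Finset.mem_filter]
          refine ⟨hq, ?_⟩
          rw [hqe]
          exact Finset.mem_image.2 ⟨(i, j), hij, rfl⟩
      have h2 : (F.image ep).card = F.card := by
        apply Finset.card_image_of_injOn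
        exact hinj.mono (by intro x hx; exact (Finset.mem_filter.1 hx).1)
      rw [← h2, h1, Sym2.card_image_offDiag, hS.card_eq]
    refine ⟨P \ S.image ι, Finset.sdiff_subset, (Q \ E0) ∪ F, ?_, ?_, ?_, ?_⟩
    · exact Finset.union_subset Finset.sdiff_subset ((Finset.filter_subset _ _).trans hE0)
    · rw [Finset.card_sdiff_of_subset, Finset.card_image_of_injective _ hι, hPc, hS.card_eq]
      · omega
      · intro v hv
        obtain ⟨i, -, rfl⟩ := Finset.mem_image.1 hv
        exact hιP i
    · rw [Finset.card_union_of_disjoint, Finset.card_sdiff_of_subset hE0, hFc]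
      · have := Finset.card_le_card hE0
        omega
      · rw [Finset.disjoint_left]
        intro q hq hq'
        exact (Finset.mem_sdiff.1 hq).2 (Finset.mem_filter.1 hq').1
    · intro a ha b hb hab
      obtain ⟨haP, haS⟩ := Finset.mem_sdiff.1 ha
      have hbQ : b ∈ Q := by
        rcases Finset.mem_union.1 hb with h | h
        · exact (Finset.mem_sdiff.1 h).1
        · exact hE0 (Finset.mem_filter.1 h).1
      obtain ⟨i, rfl, hbE, hi⟩ := (hadj a haP b hbQ).1 hab
      have hbF : b ∈ F := by
        rcases Finset.mem_union.1 hb with h | h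
        · exact absurd hbE (Finset.mem_sdiff.1 h).2
        · exact h
      obtain ⟨⟨i', j'⟩, hij, hijb⟩ := Finset.mem_image.1 (Finset.mem_filter.1 hbF).2
      have hij' := Finset.mem_offDiag.1 hij
      rw [← hijb] at hi
      apply haS
      rw [Finset.mem_image]
      refine ⟨i, ?_, rfl⟩
      have hi' : i ∈ s(i', j') := hi
      rw [Sym2.mem_iff] at hi'
      rcases hi' with h | h
      · rw [h]; exact hij'.1
      · rw [h]; exact hij'.2.1

end Pool.Agent.H36.Skew
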